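import Pool.Agent.Lib.MP_144d21_co.X4.Iface

/-!
# MP_144d21_co, project X4, module GLP (helper76): the two parts at a clique separator.
-/

set_option autoImplicit false

namespace Pool.Agent.Xu.X4.H76

open Finset Polynomial Pool.Agent.Xu Pool.Agent.Xu.X4

theorem card_le_of_col {V : Type} [Fintype V] [DecidableEq V] {G : SimpleGraph V}
    {S Q : Finset V} {q : ℕ} (hQS : Q ⊆ S) (hQ : Clq G Q) (h : (cols G S q).card ≠ 0) :
    Q.card ≤ q := by
  obtain ⟨c, hc⟩ := Finset.card_ne_zero.1 h
  rw [mem_cols] at hc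
  have h1 : Q.card ≤ (range q).card := by
    refine Finset.card_le_card_of_injOn c (fun x hx => ?_) ?_
    · exact Finset.mem_coe.2 (mem_range.2 (hc.1 x (hQS hx)))
    · intro x hx y hy hxy
      by_contra hne
      exact hc.2.2 x (hQS hx) y (hQS hy) (hQ x hx y hy hne) hxy
  rwa [card_range] at h1

theorem glp (hGlue : GlueS) (hChi : ChiS) (hCoef : CoefS) (hPfac : PfacS) (hPev : PevS) :
    GlpS := by
  intro V _ _ G S1 S2 k s hsep hclq hchi
  have h1 : descPochhammer ℤ (S1 ∩ S2).card * chi G (S1 ∪ S2) = chi G S1 * chi G S2 := by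
    apply poly_ext
    intro q
    rw [eval_mul, eval_mul, descPochhammer_eval_eq_descFactorial, hChi V G (S1 ∪ S2) q,
      hChi V G S1 q, hChi V G S2 q]
    exact_mod_cast hGlue V G S1 S2 hsep hclq q
  have ha : (S1 ∩ S2).card ≤ k + 1 := by
    refine card_le_of_col (inter_subset_left.trans subset_union_left) hclq (q := k + 1)
      (S := S1 ∪ S2) ?_
    intro h0
    have h2 := hChi V G (S1 ∪ S2) (k + 1)
    rw [h0, hchi] at h2
    have h3 := ((hPev k s).1 (k + 1)).1 h2
    omega
  have h2 := (hPev k s).2.2.2.2 _ ha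
  rw [hchi, h2] at h1
  obtain ⟨t, u, ht, hu, htu⟩ := hPfac k _ (chi G S1) (chi G S2) (hCoef V G S1).1
    (hCoef V G S2).1 h1.symm
  refine ⟨t, u, ht, hu, fun j => ?_⟩
  have hj := htu j
  by_cases hja : j < (S1 ∩ S2).card
  · rw [if_pos hja] at hj
    have hz1 : (cols G S1 j).card = 0 := by
      by_contra hne
      have := card_le_of_col inter_subset_left hclq hne
      omega
    have hz2 : (cols G S2 j).card = 0 := by
      by_contra hne
      have := card_le_of_col inter_subset_right hclq hne
      omega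
    have e1 := hChi V G S1 j
    rw [hz1, ht] at e1
    have e2 := hChi V G S2 j
    rw [hz2, hu] at e2
    have f1 := (((hPev k t).1 j).1 e1).2
    have f2 := (((hPev k u).1 j).1 e2).2
    omega
  · rw [if_neg hja] at hj
    omega

end Pool.Agent.Xu.X4.H76
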